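import Mathlib

namespace Pool.Agent.Results.MP_c6110c_co.LowerBound

open Finset Real

/-- A partial function from the chain `Fin m` to the chain `Fin t` (`none` = undefined) that is
monotone on its domain. -/
def MonoPartial {m t : ℕ} (f : Fin m → Option (Fin t)) : Prop :=
  ∀ x y a b, x ≤ y → f x = some a → f y = some b → a ≤ b

/-- `x, y` lie in the domain of `f` and `f x < f y`. -/
def Separates {m t : ℕ} (f : Fin m → Option (Fin t)) (x y : Fin m) : Prop :=
  ∃ a b, f x = some a ∧ f y = some b ∧ a < b

open Classical in
/-- A fractional local `t`-realiser of the chain with `m` elements. -/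
def IsRealiser {m t : ℕ} (w : (Fin m → Option (Fin t)) → ℝ) : Prop :=
  (∀ f, 0 ≤ w f) ∧ ∀ x y : Fin m, ¬ y ≤ x →
    1 ≤ ∑ f with MonoPartial f ∧ Separates f x y, w f

open Classical in
/-- The total weight of the monotone partial functions whose domain contains `x`. -/
noncomputable def load {m t : ℕ} (w : (Fin m → Option (Fin t)) → ℝ) (x : Fin m) : ℝ :=
  ∑ f with MonoPartial f ∧ f x ≠ none, w f

noncomputable def ψ (x : ℝ) : ℝ := x * log x
noncomputable def Y (x : ℝ) : ℝ := ψ (x + 1) - 2 * ψ x + ψ (x - 1)

lemma Y_anti : AntitoneOn Y (Set.Ici 1) := by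
  have hd : ∀ x, 1 < x → HasDerivAt Y (log (x + 1) + 1 - 2 * (log x + 1) + (log (x - 1) + 1)) x := by
    intro x hx
    have h1 := (Real.hasDerivAt_mul_log (x := x + 1) (by linarith)).comp_add_const x 1
    have h2 := (Real.hasDerivAt_mul_log (x := x) (by linarith)).const_mul 2
    have h3 := (Real.hasDerivAt_mul_log (x := x - 1) (by linarith)).comp_sub_const x 1
    exact (h1.sub h2).add h3
  refine antitoneOn_of_deriv_nonpos (convex_Ici 1) ?_ ?_ ?_
  · have := Real.continuous_mul_log
    refine Continuous.continuousOn ?_
    unfold Y ψ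
    exact ((this.comp (continuous_id.add continuous_const)).sub (continuous_const.mul this)).add
      (this.comp (continuous_id.sub continuous_const))
  · rw [interior_Ici]
    exact fun x hx => (hd x hx).differentiableAt.differentiableWithinAt
  · rw [interior_Ici]
    intro x hx
    have hx : 1 < x := hx
    rw [(hd x hx).deriv]
    have h1 : log (x + 1) + log (x - 1) ≤ 2 * log x := by
      rw [← log_mul (by linarith) (by linarith), two_mul, ← log_mul (by linarith) (by linarith)]
      exact log_le_log (by nlinarith) (by nlinarith)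
    linarith

lemma Y_nonneg (x : ℝ) (hx : 1 ≤ x) : 0 ≤ Y x := by
  have := Real.convexOn_mul_log.2 (show x + 1 ∈ Set.Ici (0 : ℝ) by simp; linarith)
    (show x - 1 ∈ Set.Ici (0 : ℝ) by simp; linarith) (show (0 : ℝ) ≤ 1 / 2 by norm_num)
    (show (0 : ℝ) ≤ 1 / 2 by norm_num) (by norm_num)
  simp only [smul_eq_mul] at this
  rw [show 1 / 2 * (x + 1) + 1 / 2 * (x - 1) = x by ring] at this
  unfold Y ψ
  linarith

lemma block (y r : ℕ) (T : Finset ℕ) : (∀ x ∈ T, x + r + 1 ≤ y) →
    ∑ x ∈ T, Y ((y : ℝ) - x) ≤ (ψ (r + T.card + 1) - ψ (r + T.card)) - (ψ (r + 1) - ψ r) := by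
  induction T using Finset.induction_on_min with
  | empty => simp
  | insert a T ha ih =>
    intro h
    have hna : a ∉ T := fun h' => lt_irrefl _ (ha a h')
    rw [sum_insert hna, card_insert_of_notMem hna]
    have ih' := ih fun x hx => h x (mem_insert_of_mem hx)
    have hc : T.card ≤ y - r - (a + 1) := by
      rw [← Nat.card_Ico]
      refine card_le_card fun x hx => mem_Ico.2 ⟨ha x hx, ?_⟩
      have := h x (mem_insert_of_mem hx)
      omega
    have h2 := h a (mem_insert_self _ _)
    have h3 : ((r + T.card + 1 + a : ℕ) : ℝ) ≤ y := by exact_mod_cast (by omega)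
    push_cast at h3 ⊢
    have h0 : (0 : ℝ) ≤ r + T.card := by positivity
    have h4 : Y ((y : ℝ) - a) ≤ Y (r + T.card + 1) :=
      Y_anti (by simp; linarith) (by simp; linarith) (by linarith)
    have h5 : Y (r + T.card + 1) = ψ (r + T.card + 1 + 1) - 2 * ψ (r + T.card + 1) + ψ (r + T.card) := by
      simp [Y]
    rw [← add_assoc]
    linarith

lemma energy {t : ℕ} (g : ℕ → Fin t) (S : Finset ℕ) : MonotoneOn g S →
    ∑ y ∈ S, ∑ x ∈ S with g x < g y, Y ((y : ℝ) - x) ≤
      ψ S.card - ∑ i, ψ (S.filter fun x => g x = i).card := by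
  induction S using Finset.induction_on_max with
  | empty => simp [ψ]
  | insert a S ha ih =>
    intro hm
    have hna : a ∉ S := fun h' => lt_irrefl _ (ha a h')
    have ih' := ih (hm.mono (by simp))
    have hle : ∀ x ∈ S, g x ≤ g a := fun x hx => hm (by simp [hx]) (by simp) (ha x hx).le
    rw [sum_insert hna, card_insert_of_notMem hna]
    have e1 : ∑ y ∈ S, ∑ x ∈ insert a S with g x < g y, Y ((y : ℝ) - x) =
        ∑ y ∈ S, ∑ x ∈ S with g x < g y, Y ((y : ℝ) - x) := by
      refine sum_congr rfl fun y hy => ?_
      rw [filter_insert, if_neg (not_lt.2 (hle y hy))]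
    have e2 : (insert a S).filter (fun x => g x < g a) = S.filter fun x => g x < g a := by
      rw [filter_insert, if_neg (lt_irrefl _)]
    set r := (S.filter fun x => g x = g a).card with hr
    have hb := block a r (S.filter fun x => g x < g a) ?_
    · have e3 : r + (S.filter fun x => g x < g a).card = S.card := by
        rw [hr, ← card_filter_add_card_filter_not (s := S) (fun x => g x = g a)]
        congr 2
        ext x
        simp only [mem_filter, and_congr_right_iff]
        exact fun hx => ⟨fun h => h.ne, fun h => lt_of_le_of_ne (hle x hx) h⟩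
      have e3' : (r : ℝ) + (S.filter fun x => g x < g a).card = S.card := by exact_mod_cast e3
      rw [e3'] at hb
      have e4 : ∑ i, ψ ((insert a S).filter fun x => g x = i).card =
          ∑ i, ψ (S.filter fun x => g x = i).card + (ψ (r + 1) - ψ r) := by
        rw [← Finset.add_sum_erase _ _ (mem_univ (g a)), ← Finset.add_sum_erase _ _ (mem_univ (g a))]
        have : ∑ i ∈ univ.erase (g a), ψ ((insert a S).filter fun x => g x = i).card =
            ∑ i ∈ univ.erase (g a), ψ (S.filter fun x => g x = i).card := by
          refine sum_congr rfl fun i hi => ?_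
          rw [filter_insert, if_neg (ne_of_mem_erase hi).symm]
        rw [this, filter_insert, if_pos rfl, card_insert_of_notMem (by simp [hna]), ← hr]
        push_cast
        ring
      rw [e1, e2, e4]
      push_cast
      linarith
    · intro x hx
      obtain ⟨hx1, hx2⟩ := mem_filter.1 hx
      have : r ≤ a - (x + 1) := by
        rw [← Nat.card_Ico]
        refine card_le_card fun z hz => mem_Ico.2 ⟨?_, ha z (mem_filter.1 hz).1⟩
        obtain ⟨hz1, hz2⟩ := mem_filter.1 hz
        by_contra hc
        have := hm (show z ∈ ((insert a S : Finset ℕ) : Set ℕ) by simp [hz1])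
          (show x ∈ ((insert a S : Finset ℕ) : Set ℕ) by simp [hx1]) (by omega)
        rw [hz2] at this
        exact absurd hx2 (not_lt.2 this)
      have := ha x hx1
      omega

lemma entropy {t : ℕ} (ht : 0 < t) (s : Fin t → ℝ) (hs : ∀ i, 0 ≤ s i) :
    ψ (∑ i, s i) - ∑ i, ψ (s i) ≤ (∑ i, s i) * log t := by
  have ht' : (0 : ℝ) < t := by exact_mod_cast ht
  have := Real.convexOn_mul_log.map_sum_le (t := univ) (w := fun _ : Fin t => (1 / t : ℝ)) (p := s)
    (fun _ _ => by positivity) (by simp; field_simp) (fun i _ => hs i)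
  simp only [smul_eq_mul, ← mul_sum] at this
  rcases (sum_nonneg fun i _ => hs i : 0 ≤ ∑ i, s i).eq_or_lt with h | h
  · have h0 : ∀ i, s i = 0 := fun i =>
      (sum_eq_zero_iff_of_nonneg fun i _ => hs i).1 h.symm i (mem_univ i)
    simp [h0, ψ]
  · rw [log_mul (by positivity) h.ne', one_div, log_inv] at this
    have h2 := mul_le_mul_of_nonneg_left this ht'.le
    rw [← mul_assoc, ← mul_assoc, ← mul_assoc, mul_inv_cancel₀ ht'.ne'] at h2
    unfold ψ
    linarith

lemma total (m : ℕ) : ∑ y ∈ range m, ∑ x ∈ range y, Y ((y : ℝ) - x) = ψ m := by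
  have h : ∀ y : ℕ, ∑ x ∈ range y, Y ((y : ℝ) - x) = ψ (y + 1) - ψ y := by
    intro y
    induction y with
    | zero => simp [ψ]
    | succ y ih =>
      rw [sum_range_succ']
      push_cast
      simp only [add_sub_add_right_eq_sub, ih, sub_zero]
      simp only [Y, add_sub_cancel_right]
      ring
  simp only [h]
  induction m with
  | zero => simp [ψ]
  | succ m ih => rw [sum_range_succ, ih]; push_cast; ring

open Classical in
lemma per_f {m t : ℕ} (ht : 0 < t) (f : Fin m → Option (Fin t)) (hf : MonoPartial f) :
    ∑ y : Fin m, ∑ x : Fin m with Separates f x y, Y ((y : ℝ) - x) ≤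
      (univ.filter fun x => f x ≠ none).card * log t := by
  let g : ℕ → Fin t := fun x => if h : x < m then (f ⟨x, h⟩).getD ⟨0, ht⟩ else ⟨0, ht⟩
  have hg : ∀ x a, f x = some a → g x.1 = a := by
    intro x a h; simp [g, h]
  let D := univ.filter fun x => f x ≠ none
  have hD : ∀ x, x ∈ D ↔ f x = some (g x.1) := by
    intro x
    simp only [D, mem_filter, mem_univ, true_and]
    constructor
    · intro h
      obtain ⟨a, ha⟩ := Option.ne_none_iff_exists'.1 h
      rw [hg x a ha, ha]
    · intro h; simp [h]
  have h1 := energy g (D.map Fin.valEmbedding) ?_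
  · have h2 := entropy ht (fun i => (((D.map Fin.valEmbedding).filter fun x => g x = i).card : ℝ))
      (fun i => by positivity)
    have h3 : ∑ i, (((D.map Fin.valEmbedding).filter fun x => g x = i).card : ℝ) =
        (D.map Fin.valEmbedding).card := by
      rw [card_eq_sum_card_fiberwise (f := g) (t := univ) (by simp)]
      push_cast; rfl
    rw [h3] at h2
    have h4 := h1.trans h2
    rw [card_map] at h4
    refine le_trans (le_of_eq ?_) h4
    rw [sum_map]
    symm
    refine sum_subset_zero_on_sdiff (subset_univ _) ?_ ?_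
    · intro y hy
      refine sum_eq_zero fun x hx => ?_
      obtain ⟨a, b, -, h, -⟩ := (mem_filter.1 hx).2
      exact absurd ((hD y).2 (by rw [hg y b h, h])) (mem_sdiff.1 hy).2
    · intro y hy
      rw [filter_map, sum_map]
      refine sum_congr ?_ fun x _ => rfl
      ext x
      simp only [mem_filter, mem_univ, true_and, Function.comp, Fin.valEmbedding_apply, hD]
      constructor
      · rintro ⟨h5, h6⟩
        exact ⟨_, _, h5, (hD y).1 hy, h6⟩
      · rintro ⟨a, b, h5, h6, h7⟩
        rw [hg x a h5, hg y b h6]
        exact ⟨h5, h7⟩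
  · intro x hx y hy hxy
    simp only [coe_map, Set.mem_image, mem_coe] at hx hy
    obtain ⟨x, hx, rfl⟩ := hx
    obtain ⟨y, hy, rfl⟩ := hy
    exact hf x y _ _ hxy ((hD x).1 hx) ((hD y).1 hy)

theorem result (t m : ℕ) (ht : 2 ≤ t) (hm : 1 ≤ m) (w : (Fin m → Option (Fin t)) → ℝ)
    (hw : IsRealiser w) : ∃ x : Fin m, Real.logb t m ≤ load w x := by
  classical
  have hlt : 0 < log t := log_pos (by exact_mod_cast ht)
  have sep_lt : ∀ f : Fin m → Option (Fin t), MonoPartial f → ∀ x y, Separates f x y → x < y := by
    rintro f hf x y ⟨a, b, h1, h2, h3⟩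
    by_contra h
    exact absurd (hf y x b a (not_lt.1 h) h2 h1) (not_le.2 h3)
  have h1 : ψ m ≤ (∑ x, load w x) * log t := by
    calc ψ m = ∑ y : Fin m, ∑ x : Fin m with x < y, Y ((y : ℝ) - x) := by
          rw [← total, ← Fin.sum_univ_eq_sum_range (fun y => ∑ x ∈ range y, Y ((y : ℝ) - x))]
          refine sum_congr rfl fun y _ => ?_
          symm
          refine sum_bij (fun x _ => x.1) (fun x hx => mem_range.2 (mem_filter.1 hx).2)
            (fun _ _ _ _ h => Fin.ext h) (fun b hb => ⟨⟨b, (mem_range.1 hb).trans y.2⟩,
              mem_filter.2 ⟨mem_univ _, mem_range.1 hb⟩, rfl⟩) fun _ _ => rfl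
      _ ≤ ∑ y : Fin m, ∑ x : Fin m with x < y,
            (∑ f with MonoPartial f ∧ Separates f x y, w f) * Y ((y : ℝ) - x) := by
          refine sum_le_sum fun y _ => sum_le_sum fun x hx => ?_
          have hxy : x < y := (mem_filter.1 hx).2
          have : ((x.1 + 1 : ℕ) : ℝ) ≤ y.1 := by exact_mod_cast hxy
          push_cast at this
          exact le_mul_of_one_le_left (Y_nonneg _ (by linarith)) (hw.2 x y (not_le.2 hxy))
      _ = ∑ f with MonoPartial f, w f * ∑ y : Fin m, ∑ x : Fin m with Separates f x y,
            Y ((y : ℝ) - x) := by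
          simp only [sum_mul, mul_sum, sum_filter]
          rw [sum_comm]
          symm
          have : ∀ f : Fin m → Option (Fin t), (if MonoPartial f then ∑ y : Fin m, ∑ x : Fin m,
              w f * (if Separates f x y then Y ((y : ℝ) - x) else 0) else 0) =
              ∑ x : Fin m, ∑ y : Fin m, if x < y then
                (if MonoPartial f ∧ Separates f x y then w f else 0) * Y ((y : ℝ) - x) else 0 := by
            intro f
            by_cases hf : MonoPartial f
            · rw [if_pos hf, sum_comm]
              refine sum_congr rfl fun x _ => sum_congr rfl fun y _ => ?_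
              by_cases hs : Separates f x y
              · simp [hs, hf, sep_lt f hf x y hs]
              · simp [hs]
            · simp [hf]
          simp only [this]
          rw [sum_comm]
          refine sum_congr rfl fun x _ => ?_
          rw [sum_comm]
          refine sum_congr rfl fun y _ => ?_
          split_ifs <;> simp
      _ ≤ ∑ f with MonoPartial f, w f * ((univ.filter fun x => f x ≠ none).card * log t) :=
          sum_le_sum fun f hf => mul_le_mul_of_nonneg_left
            (per_f (by omega) f (mem_filter.1 hf).2) (hw.1 f)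
      _ = (∑ x, load w x) * log t := by
          simp only [← mul_assoc, ← sum_mul, load]
          congr 1
          simp only [sum_filter, card_filter]
          rw [sum_comm]
          refine sum_congr rfl fun f _ => ?_
          by_cases hf : MonoPartial f
          · simp only [hf, true_and, if_true]
            push_cast
            rw [mul_sum]
            refine sum_congr rfl fun x _ => ?_
            split_ifs <;> simp
          · simp [hf]
  by_contra hc
  push Not at hc
  have : Nonempty (Fin m) := ⟨⟨0, hm⟩⟩
  have h2 : ∑ x, load w x < ∑ _x : Fin m, Real.logb t m :=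
    sum_lt_sum_of_nonempty univ_nonempty fun x _ => hc x
  rw [sum_const, card_univ, Fintype.card_fin, nsmul_eq_mul, Real.logb, ← mul_div_assoc,
    lt_div_iff₀ hlt] at h2
  unfold ψ at h1
  linarith

end Pool.Agent.Results.MP_c6110c_co.LowerBound
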